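import Pool.Agent.Q138.PS.WO
import Pool.Agent.Q138.AJ.R2d259ba
import Pool.Agent.Q138.AJ.R2d259bb
import Pool.Agent.Q138.AJ.R2d259bc

/-!
# Effective Siegel theorem for the plane curves which are close to a given point

Let `d ≥ 4` and `τ > 0`, let `Y` be a metric space and `p : ℤ[x, y] → Y` any map, for instance the coefficients of `F` divided by
one of them, as real or `ℓ`-adic numbers. `H(F)` is the largest absolute value of a coefficient of `F`, and `h(F)` their sum.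

(1) There is a set `Z ⊆ Y` of Hausdorff dimension at most `(4 d - 2) / τ` such that for every `z ∈ Y` outside `Z` and all `c`
there is `B` with: for ALL `F ∈ ℤ[x, y]` of degree `d`, irreducible over `ℚ`, with a leading form squarefree over `ℚ` and
`dist (p(F), z) ≤ c H(F) ^ (-τ)`, if the set of the integer zeros of `F` is finite, then all of them satisfy
`max (|x|, |y|) ≤ max B (((d + 1) h(F)) ^ C)`, `C = 10 ^ 11 36 ^ d (d + 1) ^ 13`. All but finitely many of these `F` (with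
finitely or infinitely many zeros) satisfy this with `B = 0`.

(2) There is a set `Z ⊆ Y` of dimension at most `(N - 1 / (10 ^ 4 d)) / τ`, `N = (d + 1) (d + 2) / 2`, such that for `z` outside
`Z` and all `c`, all but finitely many of the `F ∈ ℤ[x, y]` of degree at most `d` with `dist (p(F), z) ≤ c H(F) ^ (-τ)` have NO
integer zeros. For `Y = ℝ ^ (N - 1)` and Dirichlet's exponent `τ = N / (N - 1)` the dimension is less than `N - 1`.

(3) Let `p : ℤ → Y` be any map. There is a set `Z ⊆ Y` of dimension at most `1 / (d τ)` such that for `z` outside `Z` and ALL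
`F ∈ ℤ[x, y]` of degree `d` with squarefree leading form, for all `c` and all but finitely many integers `t` with
`dist (p(t), z) ≤ c |t| ^ (-τ)` all the integer solutions of `F(x, y) = t` satisfy `max (|x|, |y|) ≤ ((d + 1) (h(F) + |t|)) ^ C'`.
-/

set_option autoImplicit false

namespace Pool.Agent.Results.MP_2d259b_nt.CurvesNearGivenPoints

open Pool.Agent.Q138.PS

/-- all the integer solutions of `F(x, y) = t` satisfy `max (|x|, |y|) ≤ ((d + 1) (h(F) + |t|)) ^ C` with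
`C = 10 ^ 17 1296 ^ d (d + 1) ^ 15`, where `h(F)` is the sum of the absolute values of the coefficients of `F` -/
def Small (d : ℕ) (F : MvPolynomial (Fin 2) ℤ) (t : ℤ) : Prop :=
  ∀ x y : ℤ, MvPolynomial.eval ![x, y] F = t →
    max x.natAbs y.natAbs ≤ ((d + 1) * (∑ m ∈ F.support, (F.coeff m).natAbs + t.natAbs)) ^
      (10 ^ 17 * 1296 ^ d * (d + 1) ^ 15)

theorem countable_pol : Countable (MvPolynomial (Fin 2) ℤ) :=
  Cardinal.mk_le_aleph0_iff.1 (by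
    refine (MvPolynomial.cardinalMk_le_max (σ := Fin 2) (R := ℤ)).trans ?_
    simp)

theorem count_fibres (d : ℕ) (hd : 4 ≤ d) (F : MvPolynomial (Fin 2) ℤ) (hF : F.totalDegree = d)
    (hsq : Squarefree (MvPolynomial.map (Int.castRingHom ℚ) (MvPolynomial.homogeneousComponent d F))) :
    ∀ ε : ℝ, 0 < ε → ∃ C : ℝ, ∀ X : ℝ, 1 ≤ X →
      {t : ℤ | t ∈ {t : ℤ | ¬ Small d F t} ∧ |(t : ℝ)| ≤ X}.Finite ∧
      ({t : ℤ | t ∈ {t : ℤ | ¬ Small d F t} ∧ |(t : ℝ)| ≤ X}.ncard : ℝ) ≤ C * X ^ (1 / (d : ℝ) + ε) := by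
  intro ε hε
  obtain ⟨-, h⟩ := Pool.Agent.Q138.AJ.R2d259bc.result d hd F hF hsq
  refine ⟨10 ^ 9 * 36 ^ d * (d + 1) ^ 9 * 5, fun X hX => ?_⟩
  have hd0 : (0 : ℝ) < d := by exact_mod_cast (by omega : 0 < d)
  set m : ℕ := ⌈X ^ (1 / (d : ℝ))⌉₊ with hm
  have hX1 : (1 : ℝ) ≤ X ^ (1 / (d : ℝ)) := Real.one_le_rpow hX (by positivity)
  have hm1 : X ^ (1 / (d : ℝ)) ≤ m := Nat.le_ceil _
  have hm2 : (m : ℝ) ≤ 2 * X ^ (1 / (d : ℝ)) := by
    have := (Nat.ceil_lt_add_one (show 0 ≤ X ^ (1 / (d : ℝ)) by positivity)).le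
    linarith
  have hXm : X ≤ (m : ℝ) ^ d := by
    calc X = (X ^ (1 / (d : ℝ))) ^ d := by
          rw [← Real.rpow_natCast, ← Real.rpow_mul (by linarith)]
          rw [one_div, inv_mul_cancel₀ hd0.ne', Real.rpow_one]
      _ ≤ (m : ℝ) ^ d := by gcongr
  have hsub : {t : ℤ | t ∈ {t : ℤ | ¬ Small d F t} ∧ |(t : ℝ)| ≤ X} ⊆ {t : ℤ | |t| ≤ (m : ℤ) ^ d ∧
      ∃ x y : ℤ, MvPolynomial.eval ![x, y] F = t ∧
        ((d + 1) * (∑ m ∈ F.support, (F.coeff m).natAbs + t.natAbs)) ^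
          (10 ^ 17 * 1296 ^ d * (d + 1) ^ 15) < max x.natAbs y.natAbs} := by
    rintro t ⟨ht, htX⟩
    refine ⟨?_, ?_⟩
    · have h1 : |(t : ℝ)| ≤ (m : ℝ) ^ d := htX.trans hXm
      exact_mod_cast h1
    · have h1 : ¬ Small d F t := ht
      unfold Small at h1
      push Not at h1
      exact h1
  have h1 := h m
  have hfin := (Set.encard_lt_top_iff.1 (lt_of_le_of_lt h1 (ENat.natCast_lt_top _))).subset hsub
  refine ⟨hfin, ?_⟩
  have h2 : {t : ℤ | t ∈ {t : ℤ | ¬ Small d F t} ∧ |(t : ℝ)| ≤ X}.encard ≤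
      ((10 ^ 9 * 36 ^ d * (d + 1) ^ 9 * (2 * m + 1) : ℕ) : ℕ∞) := (Set.encard_le_encard hsub).trans h1
  rw [← hfin.cast_ncard_eq] at h2
  have h3 : {t : ℤ | t ∈ {t : ℤ | ¬ Small d F t} ∧ |(t : ℝ)| ≤ X}.ncard ≤
      10 ^ 9 * 36 ^ d * (d + 1) ^ 9 * (2 * m + 1) := by exact_mod_cast h2
  have h4 : ({t : ℤ | t ∈ {t : ℤ | ¬ Small d F t} ∧ |(t : ℝ)| ≤ X}.ncard : ℝ) ≤
      10 ^ 9 * 36 ^ d * (d + 1) ^ 9 * (2 * m + 1) := by exact_mod_cast h3
  refine h4.trans ?_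
  have h5 : X ^ (1 / (d : ℝ)) ≤ X ^ (1 / (d : ℝ) + ε) := Real.rpow_le_rpow_of_exponent_le hX (by linarith)
  have h6 : (2 * (m : ℝ) + 1) ≤ 5 * X ^ (1 / (d : ℝ) + ε) := by linarith
  calc (10 : ℝ) ^ 9 * 36 ^ d * (d + 1) ^ 9 * (2 * m + 1) ≤
      10 ^ 9 * 36 ^ d * (d + 1) ^ 9 * (5 * X ^ (1 / (d : ℝ) + ε)) := by gcongr
    _ = _ := by ring

/-- the largest absolute value of a coefficient -/
def ht (F : MvPolynomial (Fin 2) ℤ) : ℕ := F.support.sup fun m => (F.coeff m).natAbs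

theorem ht_le_iff (F : MvPolynomial (Fin 2) ℤ) (H : ℕ) : ht F ≤ H ↔ ∀ m, |F.coeff m| ≤ (H : ℤ) := by
  unfold ht
  rw [Finset.sup_le_iff]
  constructor
  · intro h m
    by_cases hm : m ∈ F.support
    · have := h m hm
      rw [Int.abs_eq_natAbs]
      exact_mod_cast this
    · rw [MvPolynomial.notMem_support_iff.1 hm]
      simp
  · intro h m _
    have := h m
    rw [Int.abs_eq_natAbs] at this
    exact_mod_cast this

/-- the curves of (1) with a large integer zero -/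
def Large (d : ℕ) : Set (MvPolynomial (Fin 2) ℤ) :=
  {F | F.totalDegree = d ∧ Irreducible (MvPolynomial.map (Int.castRingHom ℚ) F) ∧
    Squarefree (MvPolynomial.map (Int.castRingHom ℚ) (MvPolynomial.homogeneousComponent d F)) ∧
    ∃ x y : ℤ, MvPolynomial.eval ![x, y] F = 0 ∧
      ((d + 1) * ∑ m ∈ F.support, (F.coeff m).natAbs) ^ (10 ^ 11 * 36 ^ d * (d + 1) ^ 13) < max x.natAbs y.natAbs}

/-- the curves of (2) with an integer zero -/
def Zeros (d : ℕ) : Set (MvPolynomial (Fin 2) ℤ) :=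
  {F | F.totalDegree ≤ d ∧ ∃ x y : ℤ, MvPolynomial.eval ![x, y] F = 0}

theorem box_finite {d : ℕ} (hd : 4 ≤ d) (H : ℕ) :
    {F : MvPolynomial (Fin 2) ℤ | F.totalDegree ≤ d ∧ ∀ m, |F.coeff m| ≤ (H : ℤ)}.Finite := by
  apply Set.finite_of_ncard_pos
  rw [(Pool.Agent.Q138.AJ.R2d259ba.result d hd H).1]
  positivity

theorem count_large {d : ℕ} (hd : 4 ≤ d) (ε : ℝ) (hε : 0 < ε) : ∃ C : ℝ, ∀ T : ℝ, 1 ≤ T →
    {F | F ∈ Large d ∧ max 1 (ht F : ℝ) ≤ T}.Finite ∧ (({F | F ∈ Large d ∧ max 1 (ht F : ℝ) ≤ T}).ncard : ℝ) ≤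
      C * T ^ ((4 * d - 2 : ℝ) + ε) := by
  refine ⟨(10 ^ 9 * 36 ^ d * (d + 1) ^ 8 : ℕ) * 3 ^ (4 * d - 2), fun T hT => ?_⟩
  have hT0 : 0 ≤ T := by linarith
  set H : ℕ := ⌊T⌋₊ with hH
  have hHT : (H : ℝ) ≤ T := Nat.floor_le hT0
  have hsub : {F | F ∈ Large d ∧ max 1 (ht F : ℝ) ≤ T} ⊆
      {F : MvPolynomial (Fin 2) ℤ | (F.totalDegree = d ∧ ∀ m, |F.coeff m| ≤ (H : ℤ)) ∧
      Irreducible (MvPolynomial.map (Int.castRingHom ℚ) F) ∧
      Squarefree (MvPolynomial.map (Int.castRingHom ℚ) (MvPolynomial.homogeneousComponent d F)) ∧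
      ∃ x y : ℤ, MvPolynomial.eval ![x, y] F = 0 ∧
        ((d + 1) * ∑ m ∈ F.support, (F.coeff m).natAbs) ^ (10 ^ 11 * 36 ^ d * (d + 1) ^ 13)
          < max x.natAbs y.natAbs} := by
    rintro F ⟨⟨h1, h2, h3, h4⟩, h5⟩
    exact ⟨⟨h1, (ht_le_iff F H).1 (Nat.le_floor ((le_max_right _ _).trans h5))⟩, h2, h3, h4⟩
  have hfin : {F : MvPolynomial (Fin 2) ℤ | (F.totalDegree = d ∧ ∀ m, |F.coeff m| ≤ (H : ℤ)) ∧
      Irreducible (MvPolynomial.map (Int.castRingHom ℚ) F) ∧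
      Squarefree (MvPolynomial.map (Int.castRingHom ℚ) (MvPolynomial.homogeneousComponent d F)) ∧
      ∃ x y : ℤ, MvPolynomial.eval ![x, y] F = 0 ∧
        ((d + 1) * ∑ m ∈ F.support, (F.coeff m).natAbs) ^ (10 ^ 11 * 36 ^ d * (d + 1) ^ 13)
          < max x.natAbs y.natAbs}.Finite := by
    refine (box_finite hd H).subset ?_
    rintro F ⟨⟨h1, h2⟩, -⟩
    exact ⟨h1.le, h2⟩
  refine ⟨hfin.subset hsub, ?_⟩
  have h1 := (Set.ncard_le_ncard hsub hfin).trans (Pool.Agent.Q138.AJ.R2d259ba.result d hd H).2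
  have h2 : (({F | F ∈ Large d ∧ max 1 (ht F : ℝ) ≤ T}).ncard : ℝ) ≤
      (10 ^ 9 * 36 ^ d * (d + 1) ^ 8 : ℕ) * (2 * (H : ℝ) + 1) ^ (4 * d - 2) := by exact_mod_cast h1
  have h3 : (2 * (H : ℝ) + 1) ^ (4 * d - 2) ≤ (3 * T) ^ (4 * d - 2) :=
    pow_le_pow_left₀ (by positivity) (by linarith) _
  have h4 : T ^ (4 * d - 2) ≤ T ^ ((4 * d - 2 : ℝ) + ε) := by
    rw [← Real.rpow_natCast, Nat.cast_sub (by omega)]
    push_cast
    exact Real.rpow_le_rpow_of_exponent_le hT (by linarith)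
  refine h2.trans ?_
  calc ((10 ^ 9 * 36 ^ d * (d + 1) ^ 8 : ℕ) : ℝ) * (2 * (H : ℝ) + 1) ^ (4 * d - 2) ≤
        ((10 ^ 9 * 36 ^ d * (d + 1) ^ 8 : ℕ) : ℝ) * (3 * T) ^ (4 * d - 2) :=
        mul_le_mul_of_nonneg_left h3 (Nat.cast_nonneg _)
    _ = ((10 ^ 9 * 36 ^ d * (d + 1) ^ 8 : ℕ) : ℝ) * 3 ^ (4 * d - 2) * T ^ (4 * d - 2) := by
        rw [mul_pow]
        ring
    _ ≤ _ := mul_le_mul_of_nonneg_left h4 (by positivity)

theorem count_zeros {d : ℕ} (hd : 4 ≤ d) (ε : ℝ) (hε : 0 < ε) : ∃ C : ℝ, ∀ T : ℝ, 1 ≤ T →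
    {F | F ∈ Zeros d ∧ max 1 (ht F : ℝ) ≤ T}.Finite ∧ (({F | F ∈ Zeros d ∧ max 1 (ht F : ℝ) ≤ T}).ncard : ℝ) ≤
      C * T ^ ((((d + 1) * (d + 2) / 2 : ℕ) : ℝ) - 1 / (10 ^ 4 * (d : ℝ)) + ε) := by
  set N : ℕ := (d + 1) * (d + 2) / 2 with hN
  set δ : ℝ := 1 / (10 ^ 4 * (d : ℝ)) with hδ
  have hδ0 : 0 ≤ δ := by positivity
  set K : ℝ := Pool.Agent.Q138.AJ.R2d259bb.K d 0 0 with hK
  refine ⟨|K| * 2 ^ δ * 3 ^ N, fun T hT => ?_⟩
  have hT0 : 0 < T := by linarith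
  set H : ℕ := ⌊T⌋₊ with hH
  have hHT : (H : ℝ) ≤ T := Nat.floor_le hT0.le
  have hH1 : 1 ≤ H := (Nat.one_le_floor_iff T).2 hT
  have hTH : T / 2 ≤ H := by
    have h1 : T < H + 1 := Nat.lt_floor_add_one T
    have h2 : (1 : ℝ) ≤ H := by exact_mod_cast hH1
    linarith
  obtain ⟨hf, -, hc⟩ := Pool.Agent.Q138.AJ.R2d259bb.result ∅ 0 d (by simpa using hd) (by simp) H hH1
  have hsub : {F | F ∈ Zeros d ∧ max 1 (ht F : ℝ) ≤ T} ⊆ Pool.Agent.Q138.AJ.R2d259bb.Exc d H ∅ := by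
    rintro F ⟨⟨h1, x, y, h2⟩, h5⟩
    exact ⟨⟨h1, (ht_le_iff F H).1 (Nat.le_floor ((le_max_right _ _).trans h5)), by simp⟩, x, y, by simp, h2⟩
  have hfin : (Pool.Agent.Q138.AJ.R2d259bb.Exc d H ∅).Finite := hf.subset fun F hF => hF.1
  refine ⟨hfin.subset hsub, ?_⟩
  have hfam : Pool.Agent.Q138.AJ.R2d259bb.Fam d H ∅ =
      {F : MvPolynomial (Fin 2) ℤ | F.totalDegree ≤ d ∧ ∀ m, |F.coeff m| ≤ (H : ℤ)} := by
    ext F
    constructor
    · rintro ⟨h1, h2, -⟩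
      exact ⟨h1, h2⟩
    · rintro ⟨h1, h2⟩
      exact ⟨h1, h2, by simp⟩
  rw [hfam, (Pool.Agent.Q138.AJ.R2d259ba.result d hd H).1, Finset.card_empty] at hc
  have h1 : (({F | F ∈ Zeros d ∧ max 1 (ht F : ℝ) ≤ T}).ncard : ℝ) ≤ (Pool.Agent.Q138.AJ.R2d259bb.Exc d H ∅).ncard := by
    exact_mod_cast Set.ncard_le_ncard hsub hfin
  have h2 : (H : ℝ) ^ (-δ) ≤ 2 ^ δ * T ^ (-δ) := by
    calc (H : ℝ) ^ (-δ) ≤ (T / 2) ^ (-δ) := Real.rpow_le_rpow_of_nonpos (by positivity) hTH (by linarith)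
      _ = 2 ^ δ * T ^ (-δ) := by
        rw [Real.div_rpow hT0.le (by norm_num), Real.rpow_neg (by norm_num : (0 : ℝ) ≤ 2), div_inv_eq_mul, mul_comm]
  have h3 : (((2 * H + 1) ^ N : ℕ) : ℝ) ≤ 3 ^ N * T ^ N := by
    rw [← mul_pow]
    push_cast
    exact pow_le_pow_left₀ (by positivity) (by linarith) _
  calc (({F | F ∈ Zeros d ∧ max 1 (ht F : ℝ) ≤ T}).ncard : ℝ) ≤ K * (H : ℝ) ^ (-δ) * (((2 * H + 1) ^ N : ℕ) : ℝ) := h1.trans hc
    _ ≤ |K| * (H : ℝ) ^ (-δ) * (((2 * H + 1) ^ N : ℕ) : ℝ) :=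
        mul_le_mul_of_nonneg_right (mul_le_mul_of_nonneg_right (le_abs_self K) (Real.rpow_nonneg (Nat.cast_nonneg _) _))
          (Nat.cast_nonneg _)
    _ ≤ |K| * (2 ^ δ * T ^ (-δ)) * (3 ^ N * T ^ N) :=
        mul_le_mul (mul_le_mul_of_nonneg_left h2 (abs_nonneg K)) h3 (Nat.cast_nonneg _) (by positivity)
    _ = |K| * 2 ^ δ * 3 ^ N * T ^ ((N : ℝ) - δ) := by
        rw [sub_eq_add_neg, Real.rpow_add hT0, Real.rpow_natCast]
        ring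
    _ ≤ _ := mul_le_mul_of_nonneg_left (Real.rpow_le_rpow_of_exponent_le hT (by linarith)) (by positivity)

/-- **Theorem.** -/
theorem result (Y : Type) [MetricSpace Y] [MeasurableSpace Y] [BorelSpace Y] (d : ℕ) (hd : 4 ≤ d) (τ : ℝ) (hτ : 0 < τ) :
    (∀ p : MvPolynomial (Fin 2) ℤ → Y,
      (∃ Z : Set Y, dimH Z ≤ ENNReal.ofReal ((4 * d - 2) / τ) ∧ ∀ z, z ∉ Z → ∀ c : ℝ,
        {F | F ∈ Large d ∧ dist (p F) z ≤ c * (max 1 (ht F : ℝ)) ^ (-τ)}.Finite ∧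
        ∃ B : ℕ, ∀ F : MvPolynomial (Fin 2) ℤ, F.totalDegree = d → Irreducible (MvPolynomial.map (Int.castRingHom ℚ) F) →
          Squarefree (MvPolynomial.map (Int.castRingHom ℚ) (MvPolynomial.homogeneousComponent d F)) →
          dist (p F) z ≤ c * (max 1 (ht F : ℝ)) ^ (-τ) → {w : ℤ × ℤ | MvPolynomial.eval ![w.1, w.2] F = 0}.Finite →
          ∀ x y : ℤ, MvPolynomial.eval ![x, y] F = 0 → max x.natAbs y.natAbs ≤
            max B (((d + 1) * ∑ m ∈ F.support, (F.coeff m).natAbs) ^ (10 ^ 11 * 36 ^ d * (d + 1) ^ 13))) ∧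
      ∃ Z : Set Y, dimH Z ≤ ENNReal.ofReal (((((d + 1) * (d + 2) / 2 : ℕ) : ℝ) - 1 / (10 ^ 4 * (d : ℝ))) / τ) ∧ ∀ z, z ∉ Z →
        ∀ c : ℝ, {F : MvPolynomial (Fin 2) ℤ | F.totalDegree ≤ d ∧ dist (p F) z ≤ c * (max 1 (ht F : ℝ)) ^ (-τ) ∧
          ∃ x y : ℤ, MvPolynomial.eval ![x, y] F = 0}.Finite) ∧
    ∀ p : ℤ → Y, ∃ Z : Set Y, dimH Z ≤ ENNReal.ofReal (1 / (d * τ)) ∧ ∀ z, z ∉ Z →
      ∀ F : MvPolynomial (Fin 2) ℤ, F.totalDegree = d →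
        Squarefree (MvPolynomial.map (Int.castRingHom ℚ) (MvPolynomial.homogeneousComponent d F)) →
        ∀ c : ℝ, {t : ℤ | dist (p t) z ≤ c * (max 1 |(t : ℝ)|) ^ (-τ) ∧ ¬ Small d F t}.Finite := by
  have hd0 : (4 : ℝ) ≤ d := by exact_mod_cast hd
  refine ⟨fun p => ⟨?_, ?_⟩, fun p => ?_⟩
  · obtain ⟨Z, hZ, hz⟩ := fin_lim p (Large d) (fun F => max 1 (ht F : ℝ)) (fun F => le_max_left _ _) (4 * d - 2)
      (by linarith) (count_large hd) τ hτ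
    refine ⟨Z, hZ, fun z hzZ c => ⟨hz z hzZ c, ?_⟩⟩
    have h1 := hz z hzZ c
    have h2 : ∀ F : MvPolynomial (Fin 2) ℤ, ∃ B : ℕ, {w : ℤ × ℤ | MvPolynomial.eval ![w.1, w.2] F = 0}.Finite →
        ∀ x y : ℤ, MvPolynomial.eval ![x, y] F = 0 → max x.natAbs y.natAbs ≤ B := by
      intro F
      by_cases h : {w : ℤ × ℤ | MvPolynomial.eval ![w.1, w.2] F = 0}.Finite
      · refine ⟨h.toFinset.sup fun w => max w.1.natAbs w.2.natAbs, fun _ x y hxy => ?_⟩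
        exact Finset.le_sup (f := fun w : ℤ × ℤ => max w.1.natAbs w.2.natAbs) ((h.mem_toFinset).2 (show (x, y) ∈ _ from hxy))
      · exact ⟨0, fun h' => absurd h' h⟩
    choose B hB using h2
    refine ⟨h1.toFinset.sup B, fun F g1 g2 g3 g4 g5 x y hxy => ?_⟩
    by_cases hL : F ∈ Large d
    · refine le_max_of_le_left ((hB F g5 x y hxy).trans ?_)
      exact Finset.le_sup (f := B) ((h1.mem_toFinset).2 ⟨hL, g4⟩)
    · refine le_max_of_le_right ?_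
      by_contra hcon
      push Not at hcon
      exact hL ⟨g1, g2, g3, x, y, hxy, hcon⟩
  · have hN : (1 : ℝ) ≤ (((d + 1) * (d + 2) / 2 : ℕ) : ℝ) := by
      have h1 : 1 ≤ (d + 1) * (d + 2) / 2 := by
        rw [Nat.le_div_iff_mul_le (by norm_num)]
        nlinarith
      exact_mod_cast h1
    have hδ : 1 / (10 ^ 4 * (d : ℝ)) ≤ 1 := by
      rw [div_le_one (by positivity)]
      nlinarith
    obtain ⟨Z, hZ, hz⟩ := fin_lim p (Zeros d) (fun F => max 1 (ht F : ℝ)) (fun F => le_max_left _ _) _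
      (by linarith) (count_zeros hd) τ hτ
    refine ⟨Z, hZ, fun z hzZ c => (hz z hzZ c).subset ?_⟩
    rintro F ⟨g1, g2, g3⟩
    exact ⟨⟨g1, g3⟩, g2⟩
  · have := countable_pol
    have key : ∀ F : MvPolynomial (Fin 2) ℤ, ∃ Z : Set Y, dimH Z ≤ ENNReal.ofReal (1 / (d * τ)) ∧
        (F.totalDegree = d → Squarefree (MvPolynomial.map (Int.castRingHom ℚ) (MvPolynomial.homogeneousComponent d F)) →
          ∀ z, z ∉ Z → ∀ c : ℝ, {t : ℤ | dist (p t) z ≤ c * (max 1 |(t : ℝ)|) ^ (-τ) ∧ ¬ Small d F t}.Finite) := by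
      intro F
      by_cases h0 : F.totalDegree = d ∧
          Squarefree (MvPolynomial.map (Int.castRingHom ℚ) (MvPolynomial.homogeneousComponent d F))
      · obtain ⟨Z, hZ, hz⟩ := fin_lim p {t : ℤ | ¬ Small d F t} (fun t => max 1 |(t : ℝ)|) (fun t => le_max_left _ _)
          (1 / (d : ℝ)) (by positivity) (fun ε hε => by
            obtain ⟨C, hC⟩ := count_fibres d hd F h0.1 h0.2 ε hε
            refine ⟨C, fun T hT => ?_⟩
            have e : {t : ℤ | t ∈ {t : ℤ | ¬ Small d F t} ∧ max 1 |(t : ℝ)| ≤ T} =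
                {t : ℤ | t ∈ {t : ℤ | ¬ Small d F t} ∧ |(t : ℝ)| ≤ T} := by
              ext t
              exact ⟨fun h => ⟨h.1, (le_max_right _ _).trans h.2⟩, fun h => ⟨h.1, max_le hT h.2⟩⟩
            rw [e]
            exact hC T hT) τ hτ
        refine ⟨Z, hZ.trans (le_of_eq (by rw [div_div])), fun _ _ z hzZ c => (hz z hzZ c).subset ?_⟩
        rintro t ⟨g1, g2⟩
        exact ⟨g2, g1⟩
      · exact ⟨∅, by simp, fun g1 g2 => absurd ⟨g1, g2⟩ h0⟩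
    choose Z hZ hz using key
    refine ⟨⋃ F, Z F, ?_, fun z hzZ F g1 g2 c => hz F g1 g2 z (fun hh => hzZ (Set.mem_iUnion.2 ⟨_, hh⟩)) c⟩
    rw [dimH_iUnion]
    exact iSup_le hZ

end Pool.Agent.Results.MP_2d259b_nt.CurvesNearGivenPoints
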