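import Mathlib
import Pool.Agent.Q256.UI.Fin

set_option autoImplicit false

/-!
# Almost all plane curves with given points at infinity which have an integer point have exactly one

Let `Φ ∈ ℤ[x, y]` be a form of degree `d ≥ 7`, irreducible over `ℚ`, and let `F = Φ + G` run
through the polynomials with leading form `Φ` whose other coefficients have absolute value at most
`H`. Among those `F` for which the curve `F = 0` has an integer point, all but a proportion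
`O(H ^ (-1/6))` have exactly ONE integer point, without any restriction on the size of the points,
and it has size at most `R` except for a proportion `O(R ^ (-(d - 3)) + H ^ (-1/6))`.
-/

namespace Pool.Agent.Results.MP_2d259b_nt.OneIntegerPoint

open MvPolynomial

/-- The polynomials `F = Φ + G`, where `G` has degree at most `d - 1` and coefficients in
`[-H, H]`. -/
def Curves (Φ : MvPolynomial (Fin 2) ℤ) (d H : ℕ) : Set (MvPolynomial (Fin 2) ℤ) :=
  {F | ∃ G : MvPolynomial (Fin 2) ℤ, G.totalDegree ≤ d - 1 ∧ (∀ α, |G.coeff α| ≤ H) ∧ F = Φ + G}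

/-- The integer points `(x, y)` on the curve `F = 0`. -/
def Points (F : MvPolynomial (Fin 2) ℤ) : Set (ℤ × ℤ) := {p | eval ![p.1, p.2] F = 0}

theorem curves_eq (Φ : MvPolynomial (Fin 2) ℤ) (d H : ℕ) :
    Curves Φ d H = Pool.Agent.Q256.UI.Fam Φ d H := by
  ext F
  constructor
  · rintro ⟨G, h1, h2, h3⟩
    exact ⟨G, ⟨h1, h2⟩, h3⟩
  · rintro ⟨G, ⟨h1, h2⟩, h3⟩
    exact ⟨G, h1, h2, h3⟩

open Pool.Agent.Q256.UI in
/-- Let `d ≥ 7` and let `Φ` be a form of degree `d`, irreducible over `ℚ`. There is `C` such that for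
all `H ≥ 1`: there are `(2H+1)^(d(d+1)/2)` curves, all irreducible; between `(2H+1)^(d(d+1)/2-1)` and
`C (2H+1)^(d(d+1)/2-1)` of them have an integer point; all but a proportion `C H^(-1/6)` of these have
exactly one; all but a proportion `C (1/(R+1)^(d-3) + H^(-1/6))` of them have only integer points of
size at most `R`. -/
theorem result (d : ℕ) (hd : 7 ≤ d) (Φ : MvPolynomial (Fin 2) ℤ) (hΦ : Φ.IsHomogeneous d)
    (hirr : Irreducible (MvPolynomial.map (Int.castRingHom ℚ) Φ)) :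
    ∃ C : ℝ, 0 < C ∧ ∀ H : ℕ, 1 ≤ H →
      Nat.card (Curves Φ d H) = (2 * H + 1) ^ (d * (d + 1) / 2) ∧
      (∀ F ∈ Curves Φ d H, Irreducible (MvPolynomial.map (Int.castRingHom ℚ) F)) ∧
      (2 * H + 1) ^ (d * (d + 1) / 2 - 1) ≤
        Nat.card {F | F ∈ Curves Φ d H ∧ (Points F).Nonempty} ∧
      (Nat.card {F | F ∈ Curves Φ d H ∧ (Points F).Nonempty} : ℝ) ≤
        C * (2 * H + 1) ^ (d * (d + 1) / 2 - 1) ∧
      (Nat.card {F | F ∈ Curves Φ d H ∧ (Points F).Nontrivial} : ℝ) ≤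
        C * (H : ℝ) ^ (-(1 / 6 : ℝ)) * Nat.card {F | F ∈ Curves Φ d H ∧ (Points F).Nonempty} ∧
      ∀ R : ℕ, (Nat.card {F | F ∈ Curves Φ d H ∧
          ∃ p ∈ Points F, (R : ℤ) < max |p.1| |p.2|} : ℝ) ≤
        C * (1 / ((R : ℝ) + 1) ^ (d - 3) + (H : ℝ) ^ (-(1 / 6 : ℝ))) *
          Nat.card {F | F ∈ Curves Φ d H ∧ (Points F).Nonempty} := by
  have hL : Lead d Φ := ⟨hΦ, hirr⟩
  have hNN : NN d = d * (d + 1) / 2 := by
    unfold NN
    rw [Nat.choose_two_right]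
    congr 1
    have : d + 1 - 1 = d := by omega
    rw [this, mul_comm]
  rw [← hNN]
  have hNN1 : 1 ≤ NN d := by
    unfold NN
    exact Nat.choose_pos (by omega)
  obtain ⟨C1, hC1, h1⟩ := h_tal d Φ hd hL
  obtain ⟨C2, hC2, h2⟩ := h_unq d Φ hd hL
  have hfam := Pool.Agent.Q26.UI.fam
  have hone := Pool.Agent.Q26.UI.one
  have hirrF := Pool.Agent.Q149.UI.irr
  refine ⟨2 * C1 + C2 + 1, by positivity, fun H hH => ?_⟩
  have hH0 : (0 : ℝ) < H := by exact_mod_cast hH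
  have hH1 : (1 : ℝ) ≤ H := by exact_mod_cast hH
  have hfin : (Fam Φ d H).Finite := (hfam.1 Φ d H (by omega)).1
  have hcast : ((NN d : ℝ) - 1) = ((NN d - 1 : ℕ) : ℝ) := by
    rw [Nat.cast_sub hNN1, Nat.cast_one]
  have hpow : (H : ℝ) ^ ((NN d : ℝ) - 1) = (H : ℝ) ^ (NN d - 1) := by
    rw [hcast, Real.rpow_natCast]
  -- the lower bound
  have hlow : (2 * H + 1) ^ (NN d - 1) ≤
      Nat.card {F | F ∈ Curves Φ d H ∧ (Points F).Nonempty} := by
    rw [← hone d H Φ (by omega) hΦ, Nat.card_coe_set_eq, Nat.card_coe_set_eq, curves_eq]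
    apply Set.ncard_le_ncard _ (hfin.subset (fun F hF => hF.1))
    rintro F ⟨hF, h0⟩
    exact ⟨hF, (0, 0), h0⟩
  have hlowR : (H : ℝ) ^ ((NN d : ℝ) - 1) ≤
      Nat.card {F | F ∈ Curves Φ d H ∧ (Points F).Nonempty} := by
    rw [hpow]
    calc (H : ℝ) ^ (NN d - 1) ≤ (2 * (H : ℝ) + 1) ^ (NN d - 1) := by
          apply pow_le_pow_left₀ hH0.le; linarith
      _ = ((2 * H + 1 : ℕ) : ℝ) ^ (NN d - 1) := by push_cast; rfl
      _ ≤ _ := by exact_mod_cast hlow
  have hs1 : (H : ℝ) ^ (-(1 / 6 : ℝ)) ≤ 1 := Real.rpow_le_one_of_one_le_of_nonpos hH1 (by norm_num)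
  have hs0 : 0 ≤ (H : ℝ) ^ (-(1 / 6 : ℝ)) := (Real.rpow_pos_of_pos hH0 _).le
  have htail : ∀ R : ℕ, (Nat.card {F | F ∈ Curves Φ d H ∧
          ∃ p ∈ Points F, (R : ℤ) < max |p.1| |p.2|} : ℝ) ≤
        C1 * (H : ℝ) ^ ((NN d : ℝ) - 1) *
          (1 / ((R : ℝ) + 1) ^ (d - 3) + (H : ℝ) ^ (-(1 / 6 : ℝ))) := by
    intro R
    refine le_trans ?_ (h1 H R hH)
    rw [Nat.card_coe_set_eq, Nat.card_coe_set_eq, curves_eq]
    have : ({F | F ∈ Fam Φ d H ∧ ∃ p ∈ Points F, (R : ℤ) < max |p.1| |p.2|}).ncard ≤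
        ({F | F ∈ Fam Φ d H ∧ ∃ x y : ℤ, (R : ℤ) < max |x| |y| ∧ eval ![x, y] F = 0}).ncard := by
      apply Set.ncard_le_ncard _ (hfin.subset (fun F hF => hF.1))
      rintro F ⟨hF, p, hp, hR⟩
      exact ⟨hF, p.1, p.2, hR, hp⟩
    exact_mod_cast this
  refine ⟨?_, ?_, hlow, ?_, ?_, ?_⟩
  · rw [curves_eq]
    exact (hfam.1 Φ d H (by omega)).2
  · rintro F ⟨G, hG1, hG2, rfl⟩
    exact (hirrF d Φ G (by omega) hL hG1).2.2
  · -- the upper bound
    have h3 : ({F | F ∈ Curves Φ d H ∧ (Points F).Nonempty}).ncard ≤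
        ({F | F ∈ Fam Φ d H ∧ eval ![(0 : ℤ), 0] F = 0}).ncard +
        ({F | F ∈ Curves Φ d H ∧ ∃ p ∈ Points F, ((0 : ℕ) : ℤ) < max |p.1| |p.2|}).ncard := by
      refine le_trans (Set.ncard_le_ncard ?_ ?_) (Set.ncard_union_le _ _)
      · rintro F ⟨hF, p, hp⟩
        rcases eq_or_ne p (0, 0) with h0 | h0
        · left
          rw [curves_eq] at hF
          refine ⟨hF, ?_⟩
          rw [h0] at hp
          exact hp
        · right
          refine ⟨hF, p, hp, ?_⟩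
          rw [Nat.cast_zero]
          by_contra hcon
          rw [not_lt] at hcon
          apply h0
          have e1 : |p.1| ≤ 0 := (le_max_left _ _).trans hcon
          have e2 : |p.2| ≤ 0 := (le_max_right _ _).trans hcon
          exact Prod.ext (abs_nonpos_iff.1 e1) (abs_nonpos_iff.1 e2)
      · rw [curves_eq]
        exact (hfin.subset (fun F hF => hF.1)).union (hfin.subset (fun F hF => hF.1))
    have h4 := htail 0
    rw [Nat.card_coe_set_eq] at h4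
    have h5 := hone d H Φ (by omega) hΦ
    rw [Nat.card_coe_set_eq] at h5
    rw [Nat.card_coe_set_eq]
    have h6 : (({F | F ∈ Curves Φ d H ∧ (Points F).Nonempty}).ncard : ℝ) ≤
        (2 * (H : ℝ) + 1) ^ (NN d - 1) + C1 * (H : ℝ) ^ (NN d - 1) * (1 + 1) := by
      have h7 : (({F | F ∈ Curves Φ d H ∧ (Points F).Nonempty}).ncard : ℝ) ≤
          (({F | F ∈ Fam Φ d H ∧ eval ![(0 : ℤ), 0] F = 0}).ncard : ℝ) +
          (({F | F ∈ Curves Φ d H ∧ ∃ p ∈ Points F, ((0 : ℕ) : ℤ) < max |p.1| |p.2|}).ncard : ℝ) := by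
        exact_mod_cast h3
      rw [h5] at h7
      push_cast at h7 h4
      rw [hpow] at h4
      refine h7.trans (add_le_add le_rfl (h4.trans ?_))
      apply mul_le_mul_of_nonneg_left _ (by positivity)
      rw [zero_add, one_pow, div_one]
      linarith
    have h8 : (H : ℝ) ^ (NN d - 1) ≤ (2 * (H : ℝ) + 1) ^ (NN d - 1) := by
      apply pow_le_pow_left₀ hH0.le; linarith
    have h9 : (0 : ℝ) ≤ (2 * (H : ℝ) + 1) ^ (NN d - 1) := by positivity
    nlinarith [mul_le_mul_of_nonneg_left h8 (by linarith : (0 : ℝ) ≤ C1),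
      mul_nonneg (by linarith : (0 : ℝ) ≤ C2) h9]
  · have h3 := h2 H hH
    have h4 : (Nat.card {F | F ∈ Curves Φ d H ∧ (Points F).Nontrivial} : ℝ) ≤
        C2 * (H : ℝ) ^ ((NN d : ℝ) - 1) * (H : ℝ) ^ (-(1 / 6 : ℝ)) := by
      rw [curves_eq]
      exact h3
    refine h4.trans ?_
    have h5 : C2 * (H : ℝ) ^ ((NN d : ℝ) - 1) * (H : ℝ) ^ (-(1 / 6 : ℝ)) =
        (C2 * (H : ℝ) ^ (-(1 / 6 : ℝ))) * (H : ℝ) ^ ((NN d : ℝ) - 1) := by ring
    rw [h5]
    apply mul_le_mul _ hlowR (by positivity) (by positivity)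
    apply mul_le_mul_of_nonneg_right _ hs0
    linarith
  · intro R
    refine (htail R).trans ?_
    have h5 : C1 * (H : ℝ) ^ ((NN d : ℝ) - 1) *
          (1 / ((R : ℝ) + 1) ^ (d - 3) + (H : ℝ) ^ (-(1 / 6 : ℝ))) =
        (C1 * (1 / ((R : ℝ) + 1) ^ (d - 3) + (H : ℝ) ^ (-(1 / 6 : ℝ)))) *
          (H : ℝ) ^ ((NN d : ℝ) - 1) := by ring
    rw [h5]
    have h6 : (0 : ℝ) ≤ 1 / ((R : ℝ) + 1) ^ (d - 3) + (H : ℝ) ^ (-(1 / 6 : ℝ)) := by positivity
    apply mul_le_mul _ hlowR (by positivity) (by positivity)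
    apply mul_le_mul_of_nonneg_right _ h6
    linarith

end Pool.Agent.Results.MP_2d259b_nt.OneIntegerPoint
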