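import Mathlib
import Pool.Agent.Q29.SE.TopG

/-!
# A computable bound for the integer points which are short sums of power products

Let `f ∈ ℤ[x, y]` be any polynomial with finitely many integer zeros, of degree at most `d` and with
sum of the absolute values of the coefficients at most `W`.  We consider the integer zeros `(x, y)`
of `f` of the form

  `x = ∑_{l ≤ r} u_l t^(m_l) ∏_i F_i(t)^(e_il)`,  `y = ∑_{l ≤ r} w_l t^(m_l) ∏_i F_i(t)^(e_il)`

with polynomials `F_i` (any number of them, of total degree at most `D`) with leading coefficients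
`± 1` (for instance, with numbers `F_i(t) = t + a_i` in a short interval), coefficients of the
`F_i` and `u_l`, `w_l` at most `H` in absolute value, `∑_i e_il ≤ N`, arbitrary `m_l`.  If `t` is at
least a fixed power of `W H N`, then `|x|`, `|y|` are at most a fixed power of `H N`.
-/

set_option autoImplicit false

namespace Pool.Agent.Results.MP_2d259b_nt.PowerSums

open Polynomial

/-- `x` and `y` are sums of `r` terms `u_l t^(m_l) ∏_i F_i(t)^(e_il)`, `w_l t^(m_l) ∏_i F_i(t)^(e_il)`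
with integers `u_l`, `w_l` of absolute value at most `H`, arbitrary natural numbers `m_l`,
polynomials `F_i` of total degree at most `D` with integer coefficients of absolute value at most
`H` and leading coefficients `± 1`, and `∑_i e_il ≤ N`. -/
def Sums (t : ℕ) (r D N H : ℕ) (x y : ℤ) : Prop :=
  ∃ (q : ℕ) (F : Fin q → ℤ[X]) (m : Fin r → ℕ) (e : Fin r → Fin q → ℕ) (u w : Fin r → ℤ),
    ∑ i, (F i).natDegree ≤ D ∧ (∀ i, |(F i).leadingCoeff| = 1) ∧
    (∀ i j, |(F i).coeff j| ≤ H) ∧ (∀ l, ∑ i, e l i ≤ N) ∧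
    (∀ l, |u l| ≤ H) ∧ (∀ l, |w l| ≤ H) ∧
    x = ∑ l, u l * ((t : ℤ) ^ m l * ∏ i, (F i).eval (t : ℤ) ^ e l i) ∧
    y = ∑ l, w l * ((t : ℤ) ^ m l * ∏ i, (F i).eval (t : ℤ) ^ e l i)

/-- The integer zeros of `f`. -/
def Z (f : MvPolynomial (Fin 2) ℤ) : Set (ℤ × ℤ) := {p | MvPolynomial.eval ![p.1, p.2] f = 0}

/-- The exponent. -/
def C₀ (r d D : ℕ) : ℕ := (D + 5) * 4 ^ ((d + 1) ^ r)

/-- a curve with finitely many integer points has no nonconstant polynomial parametrisation -/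
theorem no_poly {f : MvPolynomial (Fin 2) ℤ} (hZ : (Z f).Finite) (p : Fin 2 → ℤ[X])
    (hp : MvPolynomial.aeval p f = 0) (i : Fin 2) : (p i).natDegree = 0 := by
  have hev : ∀ n : ℤ, MvPolynomial.eval ![(p 0).eval n, (p 1).eval n] f = 0 := by
    intro n
    have h1 := congrArg (Polynomial.evalRingHom n) hp
    rw [map_zero, MvPolynomial.aeval_def, MvPolynomial.hom_eval₂] at h1
    have h2 : (fun i => (Polynomial.evalRingHom n) (p i)) = ![(p 0).eval n, (p 1).eval n] := by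
      funext j
      fin_cases j <;> rfl
    rw [h2] at h1
    rw [MvPolynomial.eval, MvPolynomial.coe_eval₂Hom]
    convert h1 using 2
    ext a
    simp
  by_contra hne
  -- infinitely many points
  have hinf : ¬ (Set.range fun n : ℤ => ((p 0).eval n, (p 1).eval n)).Finite := by
    intro hfin
    have h1 : (Set.range fun n : ℤ => (p i).eval n).Finite := by
      have : (Set.range fun n : ℤ => (p i).eval n) ⊆
          (fun z : ℤ × ℤ => ![z.1, z.2] i) '' (Set.range fun n : ℤ =>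
            ((p 0).eval n, (p 1).eval n)) := by
        rintro _ ⟨n, rfl⟩
        refine ⟨_, ⟨n, rfl⟩, ?_⟩
        fin_cases i <;> rfl
      exact (hfin.image _).subset this
    obtain ⟨c, hc⟩ : ∃ c : ℤ, {n : ℤ | (p i).eval n = c}.Infinite := by
      by_contra hcon
      push Not at hcon
      have h2 : (Set.univ : Set ℤ) ⊆ ⋃ c ∈ h1.toFinset, {n : ℤ | (p i).eval n = c} := by
        intro n _
        simp only [Set.mem_iUnion, Set.Finite.mem_toFinset, Set.mem_range, Set.mem_ofPred_eq]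
        exact ⟨_, ⟨n, rfl⟩, rfl⟩
      have h3 : (⋃ c ∈ h1.toFinset, {n : ℤ | (p i).eval n = c}).Finite :=
        Set.Finite.biUnion h1.toFinset.finite_toSet fun c _ => hcon c
      exact Set.infinite_univ (h3.subset h2)
    have h2 : p i = C c := Polynomial.eq_of_infinite_eval_eq _ _ (hc.mono fun n hn => by
      simpa using hn)
    rw [h2, natDegree_C] at hne
    exact hne rfl
  apply hinf
  refine hZ.subset ?_
  rintro _ ⟨n, rfl⟩
  exact hev n

open Pool.Agent.Q29.SE Pool.Agent.Q103.SD in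
/-- **Main theorem** -/
theorem result (f : MvPolynomial (Fin 2) ℤ) (hZ : (Z f).Finite) (d W : ℕ) (hd1 : 1 ≤ d)
    (hd : f.totalDegree ≤ d) (hW : ∑ α ∈ f.support, |MvPolynomial.coeff α f| ≤ W) (r D N H : ℕ)
    (hr : 1 ≤ r) (hN : 1 ≤ N) (hH : 1 ≤ H) (t : ℕ)
    (ht : ((r + 1) * (d + 1) * (W + 1) * H * N) ^ C₀ r d D ≤ t) (x y : ℤ) (hxy : (x, y) ∈ Z f)
    (hpow : Sums t r D N H x y) :
    |x| ≤ (r * H * N) ^ C₀ r d D ∧ |y| ≤ (r * H * N) ^ C₀ r d D := by
  obtain ⟨q, P, mm, e, u, w, hD, hlc, hPH, heN, hu, hw, hx, hy⟩ := hpow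
  have hr1 : (1 : ℝ) ≤ r := by exact_mod_cast hr
  have hH1 : (1 : ℝ) ≤ H := by exact_mod_cast hH
  have hN1 : (1 : ℝ) ≤ N := by exact_mod_cast hN
  have hB : 1 ≤ (r : ℝ) * H := one_le_mul_of_one_le_of_one_le hr1 hH1
  obtain ⟨v, hv⟩ : ∃ v : Fin r → Fin 2 → ℤ, v = fun l => ![u l, w l] := ⟨_, rfl⟩
  have hvH : ∀ l i, |((v l i : ℤ) : ℝ)| ≤ H := by
    intro l i
    have h1 : |(v l i : ℤ)| ≤ H := by
      rw [hv]
      fin_cases i
      · simpa using hu l
      · simpa using hw l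
    exact_mod_cast h1
  have hev : (fun i => (pt P mm e v i).eval (t : ℤ)) = ![x, y] := by
    have h1 : ∀ i, (pt P mm e v i).eval (t : ℤ) =
        ∑ l, v l i * ((t : ℤ) ^ mm l * ∏ i, (P i).eval (t : ℤ) ^ e l i) := by
      intro i
      unfold pt
      rw [eval_finsetSum]
      refine Finset.sum_congr rfl fun l _ => ?_
      rw [eval_mul, eval_C, eval_MP, one_mul]
    funext i
    rw [h1, hv]
    fin_cases i
    · simpa using hx.symm
    · simpa using hy.symm
  have hPHr : ∀ i j, |(((P i).coeff j : ℤ) : ℝ)| ≤ H := fun i j => by exact_mod_cast hPH i j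
  -- the norm of `f`
  have hnrm : nrm (fun x : ℤ => |(x : ℝ)|) f ≤ ((W + 1 : ℕ) : ℝ) := by
    unfold nrm
    have h1 : (∑ α ∈ f.support, |((MvPolynomial.coeff α f : ℤ) : ℝ)|) ≤ W := by exact_mod_cast hW
    push_cast
    linarith
  have hW1 : (1 : ℝ) ≤ ((W + 1 : ℕ) : ℝ) := by
    push_cast
    have : (0 : ℝ) ≤ W := Nat.cast_nonneg _
    linarith
  -- the condition on `t`
  obtain ⟨ζ, hζ⟩ : ∃ ζ : ℝ, ζ = ((r : ℝ) + 1) * (d + 1) * ((W + 1 : ℕ) : ℝ) * H * N := ⟨_, rfl⟩
  have hζ4 : 4 ≤ ζ := by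
    have h2 : 4 ≤ (r + 1) * (d + 1) * (W + 1) * H * N := by
      calc 4 ≤ (1 + 1) * (1 + 1) * (0 + 1) * 1 * 1 := by norm_num
        _ ≤ _ := by gcongr; omega
    rw [hζ]
    exact_mod_cast h2
  have htZ : ζ ^ C₀ r d D ≤ t := by
    rw [hζ]
    exact_mod_cast ht
  have hsize := size_ok (r := r) (d := d) (D := D) (N := N) hr hd1 hN hW1 hH1
  rw [← hζ] at hsize
  have hdN : ((d * N : ℕ) : ℝ) * H ≤ ζ := by
    rw [hζ]
    have h2 : d * N * H ≤ (r + 1) * (d + 1) * (W + 1) * H * N := by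
      calc d * N * H = 1 * d * 1 * H * N := by ring
        _ ≤ _ := by gcongr <;> omega
    exact_mod_cast h2
  have hdN1 : 1 ≤ ((d * N : ℕ) : ℝ) * H := by
    have h2 : 1 ≤ d * N * H := Nat.mul_pos (Nat.mul_pos hd1 hN) hH
    exact_mod_cast h2
  have hYZ : YY r d D N ((W + 1 : ℕ) : ℝ) H H ≤ 2 * ζ ^ expo r d D := by
    unfold YY
    have h2 : (1 : ℝ) ≤ ((d + 1) ^ r : ℕ) * (((W + 1 : ℕ) : ℝ) * (r * H) ^ d) := by
      have a1 : (1 : ℝ) ≤ (((d + 1) ^ r : ℕ) : ℝ) := by exact_mod_cast Nat.one_le_pow _ _ (by omega)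
      exact one_le_mul_of_one_le_of_one_le a1 (one_le_mul_of_one_le_of_one_le hW1
        (one_le_pow₀ hB))
    have h3 : 0 ≤ (((d * N : ℕ) : ℝ) * H) ^ JJ (D + 1) ((d + 1) ^ r) := by positivity
    calc _ ≤ (2 * (((d + 1) ^ r : ℕ) * (((W + 1 : ℕ) : ℝ) * ((r : ℝ) * H) ^ d))) *
          (((d * N : ℕ) : ℝ) * H) ^ JJ (D + 1) ((d + 1) ^ r) :=
          mul_le_mul_of_nonneg_right (by linarith) h3
      _ = 2 * ((((d + 1) ^ r : ℕ) * (((W + 1 : ℕ) : ℝ) * ((r : ℝ) * H) ^ d)) *
          (((d * N : ℕ) : ℝ) * H) ^ JJ (D + 1) ((d + 1) ^ r)) := by ring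
      _ ≤ 2 * ζ ^ expo r d D := by linarith
  have hC : expo r d D + 4 ≤ C₀ r d D := by
    unfold C₀ expo
    have h1 : 4 ≤ 4 ^ ((d + 1) ^ r) := by
      calc 4 = 4 ^ 1 := by norm_num
        _ ≤ 4 ^ ((d + 1) ^ r) := Nat.pow_le_pow_right (by norm_num) (Nat.one_le_pow _ _ (by omega))
    have h2 : (D + 5) * 4 ^ ((d + 1) ^ r) = (D + 4) * 4 ^ ((d + 1) ^ r) + 4 ^ ((d + 1) ^ r) := by
      ring
    omega
  have htop : 4 * YY r d D N ((W + 1 : ℕ) : ℝ) H H * (((d * N : ℕ) : ℝ) * H) ≤ t := by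
    have h1 : 4 * YY r d D N ((W + 1 : ℕ) : ℝ) H H * (((d * N : ℕ) : ℝ) * H) ≤
        4 * (2 * ζ ^ expo r d D) * ζ := by
      apply mul_le_mul (by linarith) hdN (by positivity) (by positivity)
    have h2 : 4 * (2 * ζ ^ expo r d D) * ζ ≤ ζ ^ (expo r d D + 4) := by
      have h3 : ζ ^ (expo r d D + 4) = ζ ^ expo r d D * ζ * ζ ^ 3 := by
        rw [pow_add]
        ring
      rw [h3]
      have h4 : (8 : ℝ) ≤ ζ ^ 3 := by
        calc (8 : ℝ) ≤ 4 ^ 3 := by norm_num
          _ ≤ ζ ^ 3 := by gcongr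
      have h5 : 0 ≤ ζ ^ expo r d D * ζ := by positivity
      nlinarith
    exact h1.trans (h2.trans ((pow_le_pow_right₀ (by linarith) hC).trans htZ))
  -- the zero of `f` over the polynomial ring
  have hz : MvPolynomial.aeval (pt P mm e v) f = 0 := by
    by_contra hne
    have h1 := (top_poly hD hH1 hlc hPHr mm e hN heN v hB hvH f hd1 hd (by linarith) hnrm t
      htop).2 hne
    rw [hev] at h1
    have h2 : MvPolynomial.aeval ![x, y] f = 0 := by
      rw [MvPolynomial.aeval_def]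
      exact hxy
    rw [h2, Int.cast_zero, abs_zero, mul_zero] at h1
    have h3 : (0 : ℝ) < t := by
      have : (0 : ℝ) < ζ ^ C₀ r d D := by positivity
      linarith
    have h4 := pow_pos h3 (MvPolynomial.aeval (pt P mm e v) f).natDegree
    linarith
  -- constant coordinates
  have hc := no_poly hZ _ hz
  have hbound : ∀ i, |((((fun i => (pt P mm e v i).eval (t : ℤ)) i : ℤ)) : ℝ)| ≤
      ((r * H * N : ℕ) : ℝ) ^ C₀ r d D := by
    intro i
    have h1 := top_coeffs hD hH1 hlc hPHr mm e hN heN (fun l => v l i) (fun l => hvH l i)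
      (by linarith) 0 (Nat.zero_le _)
    have h2 : sm P mm e (fun l => v l i) = pt P mm e v i := rfl
    rw [h2, hc i, Nat.sub_zero, pow_zero, mul_one] at h1
    have h3 : (pt P mm e v i).eval (t : ℤ) = (pt P mm e v i).coeff 0 := by
      rw [eq_C_of_natDegree_eq_zero (hc i), eval_C, coeff_C_zero]
    simp only
    rw [h3]
    refine h1.trans ?_
    have h4 := bound_ok (r := r) (d := d) (D := D) (N := N) hr hd1 hN hH1
    have h5 : (r : ℝ) * H * (N * H) ^ JJ (D + 1) r = r * (H * (N * H) ^ JJ (D + 1) r) := by ring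
    rw [h5]
    refine h4.trans ?_
    have h6 : (r : ℝ) * N * H = ((r * H * N : ℕ) : ℝ) := by
      push_cast
      ring
    rw [h6]
    apply pow_le_pow_right₀
    · have : 1 ≤ r * H * N := Nat.mul_pos (Nat.mul_pos hr hH) hN
      exact_mod_cast this
    · omega
  rw [hev] at hbound
  exact ⟨by exact_mod_cast hbound 0, by exact_mod_cast hbound 1⟩

end Pool.Agent.Results.MP_2d259b_nt.PowerSums
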