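import Pool.Agent.Results.MP_2d259b_nt.FibresOffPolynomialValues
import Pool.Agent.Y854.GM.Win

/-!
# Effective Siegel theorem for ALL members of thin families of plane curves `F(x, y) = t`

Let `d ≥ 4`, let `v ≥ 1` be a sequence with exponent of convergence at most `τ` (for `v_n = (n + 1) ^ κ` this is `1 / κ`,
for `v_n = b ^ n` it is `0`) and `θ < 1`. For all `α > 0` outside a set of Hausdorff dimension at most
`(1 / d + τ) / (1 - θ)`, for ALL `F ∈ ℤ[x, y]` of degree `d` whose leading form is squarefree over `ℚ` (the curves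
`F(x, y) = t` have genus `(d - 1) (d - 2) / 2` for all but finitely many `t`) and all but finitely many `n`: for EVERY integer
`t` with `||t| - α v_n| ≤ v_n ^ θ` all the integer solutions of `F(x, y) = t` satisfy
`max (|x|, |y|) ≤ ((d + 1) (h(F) + |t|)) ^ C` with `C = 10 ^ 17 1296 ^ d (d + 1) ^ 15`.
-/

set_option autoImplicit false

namespace Pool.Agent.Results.MP_2d259b_nt.SiegelWindows

open Pool.Agent.Y854.GM

/-- all the integer solutions of `F(x, y) = t` satisfy `max (|x|, |y|) ≤ ((d + 1) (h(F) + |t|)) ^ C` with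
`C = 10 ^ 17 1296 ^ d (d + 1) ^ 15`, where `h(F)` is the sum of the absolute values of the coefficients of `F` -/
def Small (d : ℕ) (F : MvPolynomial (Fin 2) ℤ) (t : ℤ) : Prop :=
  ∀ x y : ℤ, MvPolynomial.eval ![x, y] F = t →
    max x.natAbs y.natAbs ≤ ((d + 1) * (∑ m ∈ F.support, (F.coeff m).natAbs + t.natAbs)) ^
      (10 ^ 17 * 1296 ^ d * (d + 1) ^ 15)

theorem countable_pol : Countable (MvPolynomial (Fin 2) ℤ) :=
  Cardinal.mk_le_aleph0_iff.1 (by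
    refine (MvPolynomial.cardinalMk_le_max (σ := Fin 2) (R := ℤ)).trans ?_
    simp)

theorem count (d : ℕ) (hd : 4 ≤ d) (F : MvPolynomial (Fin 2) ℤ) (hF : F.totalDegree = d)
    (hsq : Squarefree (MvPolynomial.map (Int.castRingHom ℚ) (MvPolynomial.homogeneousComponent d F))) :
    ∀ ε : ℝ, 0 < ε → ∃ C : ℝ, ∀ X : ℝ, 1 ≤ X →
      {t : ℤ | t ∈ {t : ℤ | ¬ Small d F t} ∧ |(t : ℝ)| ≤ X}.Finite ∧
      ({t : ℤ | t ∈ {t : ℤ | ¬ Small d F t} ∧ |(t : ℝ)| ≤ X}.ncard : ℝ) ≤ C * X ^ (1 / (d : ℝ) + ε) := by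
  intro ε hε
  obtain ⟨-, h⟩ := MP_2d259b_nt.FibresOffPolynomialValues.result d hd F hF hsq
  refine ⟨10 ^ 9 * 36 ^ d * (d + 1) ^ 9 * 5, fun X hX => ?_⟩
  have hd0 : (0 : ℝ) < d := by exact_mod_cast (by omega : 0 < d)
  set m : ℕ := ⌈X ^ (1 / (d : ℝ))⌉₊ with hm
  have hX1 : (1 : ℝ) ≤ X ^ (1 / (d : ℝ)) := Real.one_le_rpow hX (by positivity)
  have hm1 : X ^ (1 / (d : ℝ)) ≤ m := Nat.le_ceil _
  have hm2 : (m : ℝ) ≤ 2 * X ^ (1 / (d : ℝ)) := by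
    have := (Nat.ceil_lt_add_one (show 0 ≤ X ^ (1 / (d : ℝ)) by positivity)).le
    linarith
  have hXm : X ≤ (m : ℝ) ^ d := by
    calc X = (X ^ (1 / (d : ℝ))) ^ d := by
          rw [← Real.rpow_natCast, ← Real.rpow_mul (by linarith)]
          rw [one_div, inv_mul_cancel₀ hd0.ne', Real.rpow_one]
      _ ≤ (m : ℝ) ^ d := by gcongr
  have hsub : {t : ℤ | t ∈ {t : ℤ | ¬ Small d F t} ∧ |(t : ℝ)| ≤ X} ⊆ {t : ℤ | |t| ≤ (m : ℤ) ^ d ∧
      ∃ x y : ℤ, MvPolynomial.eval ![x, y] F = t ∧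
        ((d + 1) * (∑ m ∈ F.support, (F.coeff m).natAbs + t.natAbs)) ^
          (10 ^ 17 * 1296 ^ d * (d + 1) ^ 15) < max x.natAbs y.natAbs} := by
    rintro t ⟨ht, htX⟩
    refine ⟨?_, ?_⟩
    · have h1 : |(t : ℝ)| ≤ (m : ℝ) ^ d := htX.trans hXm
      exact_mod_cast h1
    · have h1 : ¬ Small d F t := ht
      unfold Small at h1
      push Not at h1
      exact h1
  have h1 := h m
  have hfin := (Set.encard_lt_top_iff.1 (lt_of_le_of_lt h1 (ENat.natCast_lt_top _))).subset hsub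
  refine ⟨hfin, ?_⟩
  have h2 : {t : ℤ | t ∈ {t : ℤ | ¬ Small d F t} ∧ |(t : ℝ)| ≤ X}.encard ≤
      ((10 ^ 9 * 36 ^ d * (d + 1) ^ 9 * (2 * m + 1) : ℕ) : ℕ∞) := (Set.encard_le_encard hsub).trans h1
  rw [← hfin.cast_ncard_eq] at h2
  have h3 : {t : ℤ | t ∈ {t : ℤ | ¬ Small d F t} ∧ |(t : ℝ)| ≤ X}.ncard ≤
      10 ^ 9 * 36 ^ d * (d + 1) ^ 9 * (2 * m + 1) := by exact_mod_cast h2
  have h4 : ({t : ℤ | t ∈ {t : ℤ | ¬ Small d F t} ∧ |(t : ℝ)| ≤ X}.ncard : ℝ) ≤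
      10 ^ 9 * 36 ^ d * (d + 1) ^ 9 * (2 * m + 1) := by exact_mod_cast h3
  refine h4.trans ?_
  have h5 : X ^ (1 / (d : ℝ)) ≤ X ^ (1 / (d : ℝ) + ε) := Real.rpow_le_rpow_of_exponent_le hX (by linarith)
  have h6 : (2 * (m : ℝ) + 1) ≤ 5 * X ^ (1 / (d : ℝ) + ε) := by linarith
  calc (10 : ℝ) ^ 9 * 36 ^ d * (d + 1) ^ 9 * (2 * m + 1) ≤
      10 ^ 9 * 36 ^ d * (d + 1) ^ 9 * (5 * X ^ (1 / (d : ℝ) + ε)) := by gcongr
    _ = _ := by ring

/-- **Theorem.** Let `d ≥ 4`, let `v ≥ 1` be a sequence of exponent of convergence at most `τ ≥ 0` and `θ < 1`. There is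
a set `E` of Hausdorff dimension at most `(1 / d + τ) / (1 - θ)` such that for each `α > 0` outside `E` and ALL
`F ∈ ℤ[x, y]` of degree `d` whose leading form is squarefree over `ℚ`, for all but finitely many `n`, for EVERY integer
`t` with `||t| - α v_n| ≤ v_n ^ θ`: all the integer solutions of `F(x, y) = t` satisfy
`max (|x|, |y|) ≤ ((d + 1) (h(F) + |t|)) ^ C`, `C = 10 ^ 17 1296 ^ d (d + 1) ^ 15`. The sequences `v_n = (n + 1) ^ κ` and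
`v_n = b ^ n` have exponent of convergence at most `1 / κ` and `0`. -/
theorem result :
    (∀ d : ℕ, 4 ≤ d → ∀ (v : ℕ → ℝ) (τ θ : ℝ), (∀ n, 1 ≤ v n) → 0 ≤ τ → ExpLe v τ → θ < 1 →
      ∃ E : Set ℝ, dimH E ≤ ENNReal.ofReal ((1 / (d : ℝ) + τ) / (1 - θ)) ∧ ∀ α : ℝ, 0 < α → α ∉ E →
        ∀ F : MvPolynomial (Fin 2) ℤ, F.totalDegree = d →
          Squarefree (MvPolynomial.map (Int.castRingHom ℚ) (MvPolynomial.homogeneousComponent d F)) →
          ∃ n₀ : ℕ, ∀ n : ℕ, n₀ ≤ n → ∀ t : ℤ, |(|(t : ℝ)| - α * v n)| ≤ (v n) ^ θ → Small d F t) ∧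
    (∀ κ : ℝ, 0 < κ → ExpLe (fun n : ℕ => ((n : ℝ) + 1) ^ κ) (1 / κ)) ∧
    (∀ b : ℝ, 1 < b → ExpLe (fun n : ℕ => b ^ n) 0) := by
  refine ⟨fun d hd v τ θ hv hτ hE hθ1 => ?_, fun κ hκ => expLe_pow κ hκ, fun b hb => expLe_geom b hb⟩
  have := countable_pol
  have key : ∀ F : MvPolynomial (Fin 2) ℤ, ∃ E : Set ℝ, dimH E ≤ ENNReal.ofReal ((1 / (d : ℝ) + τ) / (1 - θ)) ∧
      (F.totalDegree = d →
        Squarefree (MvPolynomial.map (Int.castRingHom ℚ) (MvPolynomial.homogeneousComponent d F)) →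
        ∀ α : ℝ, 0 < α → α ∉ E →
        ∃ n₀ : ℕ, ∀ n : ℕ, n₀ ≤ n → ∀ t ∈ {t : ℤ | ¬ Small d F t}, (v n) ^ θ < |(|(t : ℝ)| - α * v n)|) := by
    intro F
    by_cases h0 : F.totalDegree = d ∧
        Squarefree (MvPolynomial.map (Int.castRingHom ℚ) (MvPolynomial.homogeneousComponent d F))
    · obtain ⟨E, h1, h2⟩ := windows {t : ℤ | ¬ Small d F t} (fun t : ℤ => |(t : ℝ)|) hv hτ hE
        (s := 1 / (d : ℝ)) (by positivity) hθ1 (count d hd F h0.1 h0.2)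
      exact ⟨E, h1, fun _ _ => h2⟩
    · exact ⟨∅, by simp, fun g1 g2 => absurd ⟨g1, g2⟩ h0⟩
  choose G hG1 hG2 using key
  refine ⟨⋃ z, G z, ?_, fun α hα hαE F hF hsq => ?_⟩
  · rw [dimH_iUnion]
    exact iSup_le hG1
  · rw [Set.mem_iUnion] at hαE
    push Not at hαE
    obtain ⟨n₀, hn⟩ := hG2 F hF hsq α hα (hαE F)
    refine ⟨n₀, fun n hn1 t hw => ?_⟩
    by_contra hcon
    exact absurd (hn n hn1 t hcon) (not_lt.2 hw)

end Pool.Agent.Results.MP_2d259b_nt.SiegelWindows
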